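import Pool.Agent.Helper95.AB.GoalsW
import Pool.Agent.Helper34.AB.NUM

/-! Project AB (MP_1ef41b_an): packet DERL. -/

open MeasureTheory Set Filter Topology
open scoped ContDiff

noncomputable section

namespace Pool.Agent.Helper81.AB

open Pool.Agent.Helper24.AB Pool.Agent.Helper95.AB
open Pool.Agent.Helper34.AB (kap_lo kap_hi')

theorem derl_gen {ell : ℝ → ℝ} {Cl : ℝ} (he : ContDiff ℝ ∞ ell)
    (h1 : ∀ x ≤ 1, ell x = 0 ∧ deriv ell x = 0) (hC : ∀ x, |x * deriv ell x| ≤ Cl)
    {q : ℝ → ℝ} {c t : ℝ} (hq : HasDerivAt q (c * q t) t) (hc : |c| ≤ 1) :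
    |deriv (fun t => ell (q t)) t| ≤ Cl ∧ (q t < 1 → deriv (fun t => ell (q t)) t = 0) := by
  have hd : HasDerivAt ell (deriv ell (q t)) (q t) :=
    (he.differentiable (by simp) (q t)).hasDerivAt
  have h2 : HasDerivAt (fun t => ell (q t)) (deriv ell (q t) * (c * q t)) t := hd.comp t hq
  rw [h2.deriv]
  refine ⟨?_, fun h => ?_⟩
  · have e : deriv ell (q t) * (c * q t) = c * (q t * deriv ell (q t)) := by ring
    rw [e, abs_mul]
    calc |c| * |q t * deriv ell (q t)| ≤ 1 * |q t * deriv ell (q t)| :=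
          mul_le_mul_of_nonneg_right hc (abs_nonneg _)
      _ ≤ Cl := by rw [one_mul]; exact hC _
  · rw [(h1 _ h.le).2, zero_mul]

theorem uF_deriv (J : Fin 3 → ℤ) (t : ℝ) : HasDerivAt (uF J) (kap * uF J t) t := by
  have h1 : HasDerivAt (fun t : ℝ => kap * t) kap t := by
    simpa using (hasDerivAt_id t).const_mul kap
  have h2 := (h1.exp).const_mul (alp J)
  have e : kap * uF J t = alp J * (Real.exp (kap * t) * kap) := by
    unfold uF uf
    ring
  rw [e]
  exact h2

theorem vF_deriv (J : Fin 3 → ℤ) (t : ℝ) : HasDerivAt (vF J) (-(kap * vF J t)) t := by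
  have h0 : HasDerivAt (fun t : ℝ => kap * t) kap t := by
    simpa using (hasDerivAt_id t).const_mul kap
  have h1 : HasDerivAt (fun t : ℝ => -(kap * t)) (-kap) t := h0.neg
  have h2 := (h1.exp).const_mul (alp' J)
  have e : -(kap * vF J t) = alp' J * (Real.exp (-(kap * t)) * -kap) := by
    unfold vF vf
    ring
  rw [e]
  exact h2

theorem uF_smooth (J : Fin 3 → ℤ) : ContDiff ℝ ∞ (uF J) := by
  unfold uF uf
  fun_prop

theorem vF_smooth (J : Fin 3 → ℤ) : ContDiff ℝ ∞ (vF J) := by
  unfold vF vf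
  fun_prop

theorem derl : S_DERL := by
  intro ell Cl R J he h1 hC hR
  have hk : 0 < kap := lt_trans (by norm_num) kap_lo
  have hk1 : kap < 1 / 3 := by linarith [kap_hi']
  have hR0 : 0 < R := by linarith
  refine ⟨fun ha => ?_, ?_, ?_⟩
  · have hu : ∀ t, 0 < uF J t := fun t => mul_pos ha (Real.exp_pos _)
    have hden : ∀ t, 0 < R * (1 + uF J t) := fun t => mul_pos hR0 (by linarith [hu t])
    refine ⟨he.comp (((vF_smooth J).pow 2).div (contDiff_const.mul
      (contDiff_const.add (uF_smooth J))) fun t => (hden t).ne'), fun t => ?_⟩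
    have hu1 : 0 < 1 + uF J t := by linarith [hu t]
    have hq : HasDerivAt (fun t => vF J t ^ 2 / (R * (1 + uF J t)))
        (-(2 * kap + kap * uF J t / (1 + uF J t)) * (vF J t ^ 2 / (R * (1 + uF J t)))) t := by
      have h2 := ((vF_deriv J t).pow 2).div (((uF_deriv J t).const_add 1).const_mul R) (hden t).ne'
      refine h2.congr_deriv ?_
      rw [Pi.pow_apply]
      field_simp
      push_cast
      ring
    have hc : |-(2 * kap + kap * uF J t / (1 + uF J t))| ≤ 1 := by
      have h2 : 0 ≤ kap * uF J t / (1 + uF J t) :=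
        div_nonneg (mul_nonneg hk.le (hu t).le) hu1.le
      have h3 : kap * uF J t / (1 + uF J t) ≤ kap := by
        rw [div_le_iff₀ hu1]
        nlinarith
      rw [abs_neg, abs_of_nonneg (by linarith)]
      linarith
    obtain ⟨h4, h5⟩ := derl_gen he h1 hC hq hc
    refine ⟨h4, fun h => h5 ?_⟩
    rw [div_lt_one (hden t)]
    exact h
  · refine ⟨he.comp (((uF_smooth J).pow 2).div_const R), fun t => ?_⟩
    have hq : HasDerivAt (fun t => uF J t ^ 2 / R) ((2 * kap) * (uF J t ^ 2 / R)) t := by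
      have h2 := ((uF_deriv J t).pow 2).div_const R
      refine h2.congr_deriv ?_
      push_cast
      ring
    have hc : |2 * kap| ≤ 1 := by
      rw [abs_of_nonneg (by linarith)]
      linarith
    obtain ⟨h4, h5⟩ := derl_gen he h1 hC hq hc
    refine ⟨h4, fun h => h5 ?_⟩
    rw [div_lt_one hR0]
    exact h
  · refine ⟨he.comp (((vF_smooth J).pow 2).div_const R), fun t => ?_⟩
    have hq : HasDerivAt (fun t => vF J t ^ 2 / R) (-(2 * kap) * (vF J t ^ 2 / R)) t := by
      have h2 := ((vF_deriv J t).pow 2).div_const R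
      refine h2.congr_deriv ?_
      push_cast
      ring
    have hc : |-(2 * kap)| ≤ 1 := by
      rw [abs_neg, abs_of_nonneg (by linarith)]
      linarith
    obtain ⟨h4, h5⟩ := derl_gen he h1 hC hq hc
    refine ⟨h4, fun h => h5 ?_⟩
    rw [div_lt_one hR0]
    exact h

end Pool.Agent.Helper81.AB
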