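import Pool.Agent.Helper95.AB.GoalsW
import Pool.Agent.Helper34.AB.NUM

/-! Project AB (MP_1ef41b_an): packets SHIFT, CNTK, WB0, DERL. -/

open MeasureTheory Set Filter Topology
open scoped ContDiff

noncomputable section

namespace Pool.Agent.Helper81.AB

open Pool.Agent.Helper24.AB Pool.Agent.Helper95.AB
open Pool.Agent.Helper34.AB (ph_sq ph'_sq ph_mul ph_add lam_eq lam_inv lam_lo kap_lo kap_hi')

theorem lam_pos : 0 < lam := lt_trans (by norm_num) lam_lo

theorem shift_up (J : JI) : ∃ J' : JI, alp J'.1 = alp J.1 * lam ∧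
    alp' J'.1 = alp' J.1 * lam⁻¹ ∧ J'.1 2 = J.1 2 := by
  obtain ⟨J, hJ⟩ := J
  refine ⟨⟨![2 * J 0 + J 1, J 0 + J 1, J 2], ?_⟩, ?_, ?_, ?_⟩
  · simp only [Matrix.cons_val_zero, Matrix.cons_val_one]
    omega
  · simp only [alp, Matrix.cons_val_zero, Matrix.cons_val_one]
    rw [lam_eq]
    push_cast
    have h := ph_sq
    linear_combination (-(J 0 : ℝ) * ph - J 1 - J 0) * h
  · simp only [alp', Matrix.cons_val_zero, Matrix.cons_val_one]
    rw [lam_inv]
    push_cast
    have h := ph'_sq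
    linear_combination (-(J 0 : ℝ) * ph' - J 1 - J 0) * h
  · rfl

theorem shift_down (J : JI) : ∃ J' : JI, alp J'.1 = alp J.1 * lam⁻¹ ∧
    alp' J'.1 = alp' J.1 * lam ∧ J'.1 2 = J.1 2 := by
  obtain ⟨J, hJ⟩ := J
  refine ⟨⟨![J 0 - J 1, 2 * J 1 - J 0, J 2], ?_⟩, ?_, ?_, ?_⟩
  · simp only [Matrix.cons_val_zero, Matrix.cons_val_one]
    omega
  · simp only [alp, Matrix.cons_val_zero, Matrix.cons_val_one]
    rw [lam_inv]
    push_cast
    have h := ph'_sq
    have h1 := ph_add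
    have h2 := ph_mul
    linear_combination (-(J 0 : ℝ) * ph - J 1) * h - (J 0 : ℝ) * h2 - (J 1 : ℝ) * h1
  · simp only [alp', Matrix.cons_val_zero, Matrix.cons_val_one]
    rw [lam_eq]
    push_cast
    have h := ph_sq
    have h1 := ph_add
    have h2 := ph_mul
    linear_combination (-(J 0 : ℝ) * ph' - J 1) * h - (J 0 : ℝ) * h2 - (J 1 : ℝ) * h1
  · rfl

theorem shift : S_SHIFT := by
  intro J k
  have hl := lam_pos.ne'
  induction k using Int.induction_on with
  | zero => exact ⟨J, by simp, by simp, rfl⟩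
  | succ i ih =>
    obtain ⟨J1, h1, h2, h3⟩ := ih
    obtain ⟨J2, h4, h5, h6⟩ := shift_up J1
    refine ⟨J2, ?_, ?_, h6.trans h3⟩
    · rw [h4, h1, zpow_add_one₀ hl, mul_assoc]
    · rw [h5, h2, neg_add, zpow_add₀ hl, zpow_neg_one, mul_assoc]
  | pred i ih =>
    obtain ⟨J1, h1, h2, h3⟩ := ih
    obtain ⟨J2, h4, h5, h6⟩ := shift_down J1
    refine ⟨J2, ?_, ?_, h6.trans h3⟩
    · rw [h4, h1, zpow_sub_one₀ hl, mul_assoc]
    · rw [h5, h2, mul_assoc, ← zpow_add_one₀ hl]
      congr 2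
      ring

theorem cntk : S_CNTK := by
  rintro ε ⟨C, hC⟩
  refine ⟨max C 0, le_max_right _ _, ?_⟩
  intro J k₀ K
  obtain ⟨J', h1, h2, -⟩ := shift J k₀
  have h3 := hC (J'.1 0) (J'.1 1) J'.2 K
  have e1 : (J'.1 0 : ℝ) * ph + J'.1 1 = alp J.1 * lam ^ k₀ := h1
  have e2 : (J'.1 0 : ℝ) * ph' + J'.1 1 = alp' J.1 * lam ^ (-k₀) := h2
  rw [e1, e2] at h3
  have hlog : 0 ≤ Real.log (2 + |alp J.1 * lam ^ k₀| + |alp' J.1 * lam ^ (-k₀)|) := by
    refine Real.log_nonneg ?_
    have := abs_nonneg (alp J.1 * lam ^ k₀)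
    have := abs_nonneg (alp' J.1 * lam ^ (-k₀))
    linarith
  have h4 : C * Real.log (2 + |alp J.1 * lam ^ k₀| + |alp' J.1 * lam ^ (-k₀)|) ≤
      max C 0 * Real.log (2 + |alp J.1 * lam ^ k₀| + |alp' J.1 * lam ^ (-k₀)|) :=
    mul_le_mul_of_nonneg_right (le_max_left _ _) hlog
  have h5 : ((Finset.range K).filter fun k : ℕ => 1 / 10 ≤ dZ (alp J.1 * lam ^ k₀ * lam ^ k * ε)) =
      (Finset.range K).filter fun k : ℕ => 1 / 10 ≤ dZ (alp J.1 * lam ^ (k₀ + (k : ℤ)) * ε) := by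
    refine Finset.filter_congr fun k _ => ?_
    rw [zpow_add₀ lam_pos.ne', zpow_natCast, ← mul_assoc]
  rw [h5] at h3
  linarith

theorem wf_ge {J : Fin 3 → ℤ} (h1 : 1 ≤ |alp J * alp' J|) (t : ℝ) :
    Real.exp (kap * |t - (Real.log |alp' J| - Real.log |alp J|) / (2 * kap)|) ≤ WF J t := by
  have hk : 0 < kap := lt_trans (by norm_num) kap_lo
  have hne : alp J * alp' J ≠ 0 := by
    intro h
    rw [h, abs_zero] at h1
    linarith
  have ha : 0 < |alp J| := abs_pos.2 (left_ne_zero_of_mul hne)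
  have ha' : 0 < |alp' J| := abs_pos.2 (right_ne_zero_of_mul hne)
  have hlog : 0 ≤ Real.log |alp J| + Real.log |alp' J| := by
    rw [← Real.log_mul ha.ne' ha'.ne', ← abs_mul]
    exact Real.log_nonneg h1
  set s := t - (Real.log |alp' J| - Real.log |alp J|) / (2 * kap) with hs
  have hks : kap * s = kap * t - (Real.log |alp' J| - Real.log |alp J|) / 2 := by
    rw [hs]
    field_simp
  have hu : |uF J t| = Real.exp (Real.log |alp J| + kap * t) := by
    unfold uF uf
    rw [abs_mul, abs_of_pos (Real.exp_pos _), Real.exp_add, Real.exp_log ha]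
  have hv : |vF J t| = Real.exp (Real.log |alp' J| - kap * t) := by
    unfold vF vf
    rw [abs_mul, abs_of_pos (Real.exp_pos _), sub_eq_add_neg, Real.exp_add, Real.exp_log ha']
  have hu0 : Real.exp (kap * s) ≤ |uF J t| := by
    rw [hu]
    refine Real.exp_le_exp.2 ?_
    linarith
  have hv0 : Real.exp (-(kap * s)) ≤ |vF J t| := by
    rw [hv]
    refine Real.exp_le_exp.2 ?_
    linarith
  have hW : WF J t = 2 + |uF J t| + |vF J t| + |(J 2 : ℝ)| := rfl
  rw [hW]
  have := abs_nonneg (J 2 : ℝ)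
  have := abs_nonneg (uF J t)
  have := abs_nonneg (vF J t)
  rcases abs_cases s with ⟨h, -⟩ | ⟨h, -⟩
  · rw [h]
    linarith
  · rw [h]
    have e : kap * -s = -(kap * s) := by ring
    rw [e]
    linarith

theorem wf_cont (J : Fin 3 → ℤ) : Continuous (WF J) := by
  unfold WF WJ Wf uf vf
  fun_prop

theorem wf_one (J : Fin 3 → ℤ) (t : ℝ) : 2 ≤ WF J t := by
  have hW : WF J t = 2 + |uF J t| + |vF J t| + |(J 2 : ℝ)| := rfl
  rw [hW]
  have := abs_nonneg (J 2 : ℝ)
  have := abs_nonneg (uF J t)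
  have := abs_nonneg (vF J t)
  linarith

theorem wb0 : S_WB0 := by
  have hk : 0 < kap := lt_trans (by norm_num) kap_lo
  have hk1 : kap ≤ 1 := by linarith [kap_hi']
  have hone : ∀ J : JI, 1 ≤ |alp J.1 * alp' J.1| := by
    intro J
    exact Pool.Agent.Helper34.AB.one_le (J.1 0) (J.1 1) J.2
  refine ⟨?_, ?_, ?_, ?_⟩
  · intro J
    have h := hone J
    have hne : alp J.1 * alp' J.1 ≠ 0 := by
      intro h0
      rw [h0, abs_zero] at h
      linarith
    exact ⟨left_ne_zero_of_mul hne, right_ne_zero_of_mul hne, h⟩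
  · intro J t
    have e : uF J t * vF J t = alp J * alp' J := by
      unfold uF vF uf vf
      rw [mul_mul_mul_comm, ← Real.exp_add, add_neg_cancel, Real.exp_zero, mul_one]
    refine ⟨e, ?_⟩
    unfold MJ
    rw [← e, abs_mul]
    have hW : WF J t = 2 + |uF J t| + |vF J t| + |(J 2 : ℝ)| := rfl
    rw [hW]
    have h1 := abs_nonneg (J 2 : ℝ)
    have h2 := abs_nonneg (uF J t)
    have h3 := abs_nonneg (vF J t)
    rw [← sq_abs (J 2 : ℝ)]
    nlinarith [mul_nonneg h1 h2, mul_nonneg h1 h3, mul_nonneg h2 h3]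
  · refine ⟨fun J t => ?_, fun J => wf_cont J.1, fun J t s => ?_⟩
    · have := wf_one J.1 t
      linarith
    · change WF J.1 (t + s) ≤ Real.exp |s| * WF J.1 t
      have hW : ∀ t, WF J.1 t = 2 + |uF J.1 t| + |vF J.1 t| + |(J.1 2 : ℝ)| := fun _ => rfl
      rw [hW, hW]
      have h0 : 1 ≤ Real.exp |s| := Real.one_le_exp (abs_nonneg s)
      have hs1 : kap * s ≤ |s| := by
        have := le_abs_self s
        nlinarith [abs_nonneg s]
      have hs2 : -(kap * s) ≤ |s| := by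
        have := neg_abs_le s
        nlinarith [abs_nonneg s]
      have hu : |uF J.1 (t + s)| ≤ Real.exp |s| * |uF J.1 t| := by
        unfold uF uf
        rw [mul_add, Real.exp_add, ← mul_assoc, abs_mul _ (Real.exp (kap * s)),
          abs_of_pos (Real.exp_pos (kap * s)), mul_comm]
        exact mul_le_mul_of_nonneg_right (Real.exp_le_exp.2 hs1) (abs_nonneg _)
      have hv : |vF J.1 (t + s)| ≤ Real.exp |s| * |vF J.1 t| := by
        unfold vF vf
        rw [mul_add, neg_add, Real.exp_add, ← mul_assoc, abs_mul _ (Real.exp (-(kap * s))),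
          abs_of_pos (Real.exp_pos (-(kap * s))), mul_comm]
        exact mul_le_mul_of_nonneg_right (Real.exp_le_exp.2 hs2) (abs_nonneg _)
      have h1 := abs_nonneg (J.1 2 : ℝ)
      nlinarith
  · have hint : Integrable (fun s : ℝ => (1 + (kap * s) ^ 2)⁻¹) :=
      integrable_inv_one_add_sq.comp_mul_left' hk.ne'
    refine ⟨∫ s : ℝ, (1 + (kap * s) ^ 2)⁻¹, fun J => ?_⟩
    set τ : ℝ := (Real.log |alp' J.1| - Real.log |alp J.1|) / (2 * kap) with hτ
    have hi2 : Integrable (fun t : ℝ => (1 + (kap * (t - τ)) ^ 2)⁻¹) := hint.comp_sub_right τ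
    have hle : ∀ t, (WF J.1 t ^ 2)⁻¹ ≤ (1 + (kap * (t - τ)) ^ 2)⁻¹ := by
      intro t
      have h1 := wf_ge (hone J) t
      have h2 : 0 ≤ kap * |t - τ| := mul_nonneg hk.le (abs_nonneg _)
      have h3 := Real.quadratic_le_exp_of_nonneg h2
      have h4 : 1 + kap * |t - τ| + (kap * |t - τ|) ^ 2 / 2 ≤ WF J.1 t := h3.trans h1
      refine inv_anti₀ (by positivity) ?_
      have h5 : (kap * (t - τ)) ^ 2 = (kap * |t - τ|) ^ 2 := by
        rw [mul_pow, mul_pow, sq_abs]
      rw [h5]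
      nlinarith [sq_nonneg (kap * |t - τ|)]
    have hi1 : Integrable (fun t => (WF J.1 t ^ 2)⁻¹) := by
      refine hi2.mono' ?_ ?_
      · refine Continuous.aestronglyMeasurable ?_
        refine Continuous.inv₀ ((wf_cont J.1).pow 2) fun t => ?_
        have := wf_one J.1 t
        positivity
      · refine Eventually.of_forall fun t => ?_
        rw [Real.norm_eq_abs, abs_of_nonneg (by positivity)]
        exact hle t
    refine ⟨hi1, ?_⟩
    calc ∫ t, (WF J.1 t ^ 2)⁻¹ ≤ ∫ t, (1 + (kap * (t - τ)) ^ 2)⁻¹ := integral_mono hi1 hi2 hle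
      _ = ∫ s : ℝ, (1 + (kap * s) ^ 2)⁻¹ :=
          integral_sub_right_eq_self (fun s : ℝ => (1 + (kap * s) ^ 2)⁻¹) τ

end Pool.Agent.Helper81.AB
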